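import Pool.Agent.W133.DQ.StB

/-!
Project DQ: stage R, small regime.
-/

set_option autoImplicit false

open scoped ContDiff
open Set Filter Topology

namespace Pool.Agent.W136.DQ

open Pool.Agent.W133.DQ

theorem nb_mono {r : ℕ} {u : P2 → ℝ} {b b' : ℝ} (h : NB r u b) (hb : b ≤ b') : NB r u b' :=
  fun p => (h p).trans hb

theorem nb_dil (A : ℝ) (hA : 1 ≤ A) (v : P2 → ℝ) (hv : ContDiff ℝ ∞ v) (j : ℕ) (a : ℝ)
    (h : NB j v a) : NB j (dil A v) (A * (A⁻¹ ^ j * a)) := by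
  intro p
  have hA0 : 0 < A := by linarith
  set L : P2 →L[ℝ] P2 := A⁻¹ • ContinuousLinearMap.id ℝ P2 with hL
  have e1 : dil A v = A • (v ∘ L) := by
    funext q
    simp only [dil, Pi.smul_apply, Function.comp_apply, smul_eq_mul]
    congr 2
    rw [hL]
    ext <;> simp [div_eq_inv_mul]
  have hvj : ContDiff ℝ j v := hv.of_le (by exact_mod_cast le_top)
  have e2 : iteratedFDeriv ℝ j (A • (v ∘ L)) p = A • iteratedFDeriv ℝ j (v ∘ L) p :=
    iteratedFDeriv_const_smul_apply ((hvj.comp L.contDiff).contDiffAt)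
  rw [e1, e2, norm_smul, Real.norm_of_nonneg hA0.le]
  apply mul_le_mul_of_nonneg_left _ hA0.le
  rw [ContinuousLinearMap.iteratedFDeriv_comp_right L hvj p le_rfl]
  refine (ContinuousMultilinearMap.norm_compContinuousLinearMap_le _ _).trans ?_
  have hLn : ‖L‖ ≤ A⁻¹ := by
    rw [hL, norm_smul, Real.norm_of_nonneg (by positivity)]
    calc A⁻¹ * ‖ContinuousLinearMap.id ℝ P2‖ ≤ A⁻¹ * 1 :=
          mul_le_mul_of_nonneg_left ContinuousLinearMap.norm_id_le (by positivity)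
      _ = A⁻¹ := mul_one _
  rw [Finset.prod_const, Finset.card_univ, Fintype.card_fin, mul_comm]
  exact mul_le_mul (pow_le_pow_left₀ (norm_nonneg _) hLn j) (h _) (norm_nonneg _) (by positivity)

theorem nb_shift (u : P2 → ℝ) (c : P2) (j : ℕ) (a : ℝ) (h : NB j u a) :
    NB j (fun q => u (q + c)) a := by
  intro p
  rw [iteratedFDeriv_comp_add_right]
  exact h _

theorem dense_nonint : Dense {p : P2 | Int.fract p.1 ≠ 0} := by
  have h1 : Dense ((Set.range ((↑) : ℤ → ℝ))ᶜ) := (Set.countable_range _).dense_compl ℝ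
  have h2 : Dense ((Prod.fst : P2 → ℝ) ⁻¹' ((Set.range ((↑) : ℤ → ℝ))ᶜ)) :=
    h1.preimage isOpenMap_fst
  refine h2.mono ?_
  intro p hp h0
  apply hp
  exact ⟨⌊p.1⌋, by have := Int.floor_add_fract p.1; rw [h0, add_zero] at this; exact this⟩

theorem r1 (hCH : S_CH1) (hR : S_R0) : S_R1 := by
  refine ⟨7, by norm_num, ?_⟩
  intro A hA
  obtain ⟨ε0, C0, hε0, hC0, hchain⟩ := hCH (2 * A + 5)
  obtain ⟨δ, C1, hδ, hC1, hR0⟩ := hR A hA
  have hA1 : (1 : ℝ) ≤ A := by exact_mod_cast hA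
  have hA0 : (0 : ℝ) < A := by linarith
  refine ⟨min (ε0 / A) δ, C0 * (A : ℝ) ^ 2, by positivity, by positivity, ?_⟩
  intro v hv hs a ha0 ha hnb
  have haε : A * a ≤ ε0 := by
    have h1 : a ≤ ε0 / A := ha.trans (min_le_left _ _)
    rw [le_div_iff₀ hA0] at h1
    linarith
  have haδ : a ≤ δ := ha.trans (min_le_right _ _)
  obtain ⟨hsm, -⟩ := hR0 v hv hs a ha0 haδ (hnb 1 (by norm_num))
  set u : P2 → ℝ := dil (A : ℝ) v with hu
  have hus : ContDiff ℝ ∞ u := by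
    have : u = fun p : P2 => (A : ℝ) * v (p.1 / A, p.2 / A) := rfl
    rw [this]
    exact contDiff_const.mul (hv.comp ((contDiff_fst.div_const _).prodMk
      (contDiff_snd.div_const _)))
  set w : ℕ → P2 → ℝ := fun i q => u (q.1 + ((i : ℝ) - A - 2), q.2) with hw
  have hwe : ∀ i, w i = fun q => u (q + ((i : ℝ) - A - 2, 0)) := by
    intro i
    funext q
    simp only [hw]
    congr 1
    ext <;> simp
  have hws : ∀ i, ContDiff ℝ ∞ (w i) := by
    intro i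
    rw [hwe]
    exact hus.comp (contDiff_id.add contDiff_const)
  have hwj : ∀ (j : ℕ) (b : ℝ), NB j u b → ∀ i, NB j (w i) b := by
    intro j b h i
    rw [hwe]
    exact nb_shift u _ j b h
  have hinv1 : (A : ℝ)⁻¹ ≤ 1 := inv_le_one_of_one_le₀ hA1
  have hu1 : ∀ j : ℕ, 1 ≤ j → j ≤ 4 → NB j u (A * a) := by
    intro j _ hj4
    refine nb_mono (nb_dil A hA1 v hv j a (hnb j hj4)) ?_
    apply mul_le_mul_of_nonneg_left _ hA0.le
    calc (A : ℝ)⁻¹ ^ j * a ≤ 1 * a :=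
          mul_le_mul_of_nonneg_right (pow_le_one₀ (by positivity) hinv1) ha0
      _ = a := one_mul a
  have hu4 : NB 4 u (A * ((A : ℝ)⁻¹ ^ 4 * a)) := nb_dil A hA1 v hv 4 a (hnb 4 le_rfl)
  obtain ⟨hG, -⟩ := hchain w hws (A * a) (A * ((A : ℝ)⁻¹ ^ 4 * a)) (by positivity) haε
    (by positivity) (fun i _ j h1 h4 => hwj j _ (hu1 j h1 h4) i) (fun i _ => hwj 4 _ hu4 i)
  set G : P2 → ℝ := chain w (2 * A + 5) with hGdef
  have hbound : ((2 * A + 5 : ℕ) : ℝ) * (A * ((A : ℝ)⁻¹ ^ 4 * a)) + C0 * (A * a) ^ 2 ≤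
      7 / (A : ℝ) ^ 2 * a + C0 * (A : ℝ) ^ 2 * a ^ 2 := by
    have e : (A : ℝ) * ((A : ℝ)⁻¹ ^ 4 * a) = a / (A : ℝ) ^ 3 := by
      field_simp
    rw [e]
    have h1 : ((2 * A + 5 : ℕ) : ℝ) ≤ 7 * A := by push_cast; linarith
    have h2 : ((2 * A + 5 : ℕ) : ℝ) * (a / (A : ℝ) ^ 3) ≤ 7 * A * (a / (A : ℝ) ^ 3) :=
      mul_le_mul_of_nonneg_right h1 (by positivity)
    have h3 : 7 * A * (a / (A : ℝ) ^ 3) = 7 / (A : ℝ) ^ 2 * a := by
      field_simp
    have h4 : C0 * (A * a) ^ 2 = C0 * (A : ℝ) ^ 2 * a ^ 2 := by ring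
    linarith
  have hG' : NB 4 G (7 / (A : ℝ) ^ 2 * a + C0 * (A : ℝ) ^ 2 * a ^ 2) := nb_mono hG hbound
  -- the function SR
  have hSR : ∀ p : P2, SR A v p = G (Int.fract p.1, p.2) := fun p => rfl
  have hcl : IsClosed {p : P2 | ‖iteratedFDeriv ℝ 4 (SR A v) p‖ ≤
      7 / (A : ℝ) ^ 2 * a + C0 * (A : ℝ) ^ 2 * a ^ 2} := by
    apply isClosed_le _ continuous_const
    exact ((contDiff_infty.1 hsm 4).continuous_iteratedFDeriv le_rfl).norm
  intro p
  have hmem : ∀ q ∈ {p : P2 | Int.fract p.1 ≠ 0}, ‖iteratedFDeriv ℝ 4 (SR A v) q‖ ≤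
      7 / (A : ℝ) ^ 2 * a + C0 * (A : ℝ) ^ 2 * a ^ 2 := by
    intro q hq
    have hev : SR A v =ᶠ[𝓝 q] fun p => G (p + (-(⌊q.1⌋ : ℝ), 0)) := by
      have h1 : (⌊q.1⌋ : ℝ) < q.1 := by
        rcases lt_or_eq_of_le (Int.floor_le q.1) with h | h
        · exact h
        · exfalso
          apply hq
          rw [Int.fract, ← h]
          simp
      have h2 : q.1 < (⌊q.1⌋ : ℝ) + 1 := Int.lt_floor_add_one q.1
      have hop : IsOpen {p : P2 | (⌊q.1⌋ : ℝ) < p.1 ∧ p.1 < (⌊q.1⌋ : ℝ) + 1} :=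
        (isOpen_lt continuous_const continuous_fst).inter
          (isOpen_lt continuous_fst continuous_const)
      filter_upwards [hop.mem_nhds ⟨h1, h2⟩] with p hp
      rw [hSR]
      congr 1
      have h3 : ⌊p.1⌋ = ⌊q.1⌋ := Int.floor_eq_iff.2 ⟨hp.1.le, hp.2⟩
      ext
      · simp [Int.fract, h3, sub_eq_add_neg]
      · simp
    rw [(Filter.EventuallyEq.iteratedFDeriv ℝ hev 4).eq_of_nhds]
    exact nb_shift G _ 4 _ hG' q
  have := hcl.closure_subset_iff.2 hmem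
  rw [dense_nonint.closure_eq] at this
  exact this (Set.mem_univ p)

end Pool.Agent.W136.DQ
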